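import Mathlib
import Pool.Agent.Q223.TR.Root

/-!
# Independent domination and weak domination in trees

For every tree `i(T) ≤ γ_W(T)`. More generally, in a tree every dominating set which contains all
leaves is at least as large as some independent dominating set.

Root the tree. Let `D` be a dominating set containing all leaves. From the root downwards put `v`
into `I` if its parent `p` is not in `I` and either `v ∈ D`, or `p ∉ D` and `v` is the child
selected for `p`: a child in `D` if there is one, otherwise any child. Then `I` is an independent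
dominating set and every vertex of `I \ D` has a child in `D \ I`.
-/

set_option autoImplicit false

namespace Pool.Agent.Results.MP_2d208d_co.IndependentWeak

open Q223.TR

universe u

variable {V : Type u}

/-- `S` is a dominating set: every vertex outside `S` has a neighbour in `S`. -/
def Dominating (G : SimpleGraph V) (S : Finset V) : Prop := ∀ v, v ∉ S → ∃ u ∈ S, G.Adj u v

/-- `S` is an independent set. -/
def Independent (G : SimpleGraph V) (S : Finset V) : Prop :=
  ∀ u ∈ S, ∀ v ∈ S, ¬ G.Adj u v

/-- The degree of a vertex (the number of its neighbours). -/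
noncomputable def deg (G : SimpleGraph V) (v : V) : ℕ := (G.neighborSet v).ncard

/-- `D` is a weak dominating set: every vertex `v` outside `D` has a neighbour `u` in `D` with
`deg u ≤ deg v`. -/
def WeakDominating (G : SimpleGraph V) (D : Finset V) : Prop :=
  ∀ v, v ∉ D → ∃ u ∈ D, G.Adj u v ∧ deg G u ≤ deg G v

/-- The independent domination number. -/
noncomputable def indDom (G : SimpleGraph V) : ℕ :=
  sInf {k | ∃ S : Finset V, Dominating G S ∧ Independent G S ∧ S.card = k}

/-- The weak domination number. -/
noncomputable def weakDom (G : SimpleGraph V) : ℕ :=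
  sInf {k | ∃ D : Finset V, WeakDominating G D ∧ D.card = k}

variable {G : SimpleGraph V}

/-- The main construction. -/
theorem exists_indep [Finite V] (hG : G.IsTree) (D : Finset V) (hD : Dominating G D)
    (hleaf : ∀ v, v ∉ D → ∀ x, G.Adj v x → ∃ y, y ≠ x ∧ G.Adj v y) :
    ∃ I : Finset V, Dominating G I ∧ Independent G I ∧ I.card ≤ D.card := by
  classical
  have := Fintype.ofFinite V
  obtain ⟨r⟩ := hG.connected.nonempty
  let child : V → V → Prop := fun y p => y ≠ r ∧ par hG r y = p
  have hadj : ∀ y p, child y p → G.Adj p y := by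
    rintro y p ⟨hy, rfl⟩
    exact par_adj hG r hy
  have hchild : ∀ p, p ∉ D → ∃ y, child y p := by
    intro p hp
    obtain ⟨u, _, hu⟩ := hD p hp
    rcases adj_cases hG r hu.symm with h1 | ⟨hp', h1⟩
    · exact ⟨u, h1⟩
    · obtain ⟨y, hyu, hy⟩ := hleaf p hp u hu.symm
      rcases adj_cases hG r hy with h2 | ⟨_, h2⟩
      · exact ⟨y, h2⟩
      · exact absurd (h2.symm.trans h1) hyu
  have hch : ∀ p, ∃ y, p ∉ D → child y p ∧ ((∃ z, child z p ∧ z ∈ D) → y ∈ D) := by
    intro p
    by_cases hp : p ∈ D
    · exact ⟨p, fun h => absurd hp h⟩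
    · by_cases hz : ∃ z, child z p ∧ z ∈ D
      · obtain ⟨z, hz1, hz2⟩ := hz
        exact ⟨z, fun _ => ⟨hz1, fun _ => hz2⟩⟩
      · obtain ⟨y, hy⟩ := hchild p hp
        exact ⟨y, fun _ => ⟨hy, fun h => absurd h hz⟩⟩
  choose ch hch using hch
  obtain ⟨f, hf0, hf⟩ := exists_top_down hG r (r ∈ D : Prop)
    (fun v b => ¬ b ∧ (v ∈ D ∨ (par hG r v ∉ D ∧ v = ch (par hG r v))))
  have hf' : ∀ v, v ≠ r → (f v ↔ (¬ f (par hG r v) ∧
      (v ∈ D ∨ (par hG r v ∉ D ∧ v = ch (par hG r v))))) := by
    intro v hv
    rw [hf v hv]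
  have hsel : ∀ v, v ∉ D → ¬ f v → f (ch v) := by
    intro v hv hfv
    obtain ⟨⟨h1, h2⟩, _⟩ := hch v hv
    rw [hf' _ h1, h2]
    exact ⟨hfv, Or.inr ⟨hv, rfl⟩⟩
  have hind : ∀ u v, f u → f v → ¬ G.Adj u v := by
    intro u v hu hv huv
    rcases adj_cases hG r huv with ⟨h1, h2⟩ | ⟨h1, h2⟩
    · rw [hf' v h1, h2] at hv
      exact hv.1 hu
    · rw [hf' u h1, h2] at hu
      exact hu.1 hv
  -- vertices in `I` but not in `D`
  have hown : ∀ x, f x → x ∉ D → ∃ y, child y x ∧ y ∈ D := by
    intro x hx hxD
    have hxr : x ≠ r := by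
      rintro rfl
      rw [hf0] at hx
      exact hxD hx
    have h1 := (hf' x hxr).1 hx
    have h2 : par hG r x ∉ D := by
      rcases h1.2 with h | h
      · exact absurd h hxD
      · exact h.1
    obtain ⟨u, hu, hux⟩ := hD x hxD
    rcases adj_cases hG r hux with ⟨_, h3⟩ | h3
    · rw [h3] at h2
      exact absurd hu h2
    · exact ⟨u, h3, hu⟩
  have hown' : ∀ x, ∃ y, f x → (x ∈ D ∧ y = x) ∨ (x ∉ D ∧ child y x ∧ y ∈ D) := by
    intro x
    by_cases hx : f x
    · by_cases hxD : x ∈ D
      · exact ⟨x, fun _ => Or.inl ⟨hxD, rfl⟩⟩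
      · obtain ⟨y, hy1, hy2⟩ := hown x hx hxD
        exact ⟨y, fun _ => Or.inr ⟨hxD, hy1, hy2⟩⟩
    · exact ⟨x, fun h => absurd h hx⟩
  choose g hg using hown'
  refine ⟨Finset.univ.filter f, ?_, ?_, ?_⟩
  · intro v hv
    have hfv : ¬ f v := by simpa using hv
    by_cases hvD : v ∈ D
    · have hvr : v ≠ r := by
        rintro rfl
        rw [hf0] at hfv
        exact hfv hvD
      by_cases hp : f (par hG r v)
      · exact ⟨par hG r v, by simpa using hp, par_adj hG r hvr⟩
      · exact absurd ((hf' v hvr).2 ⟨hp, Or.inl hvD⟩) hfv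
    · exact ⟨ch v, by simpa using hsel v hvD hfv, (hadj _ _ (hch v hvD).1).symm⟩
  · intro u hu v hv
    exact hind u v (by simpa using hu) (by simpa using hv)
  · refine Finset.card_le_card_of_injOn g ?_ ?_
    · intro x hx
      have hx' : f x := by simpa using hx
      rcases hg x hx' with ⟨h1, h2⟩ | ⟨_, _, h2⟩
      · rw [h2]
        exact h1
      · exact h2
    · intro x hx y hy hxy
      have hx' : f x := by simpa using hx
      have hy' : f y := by simpa using hy
      rcases hg x hx' with ⟨_, h2⟩ | ⟨_, h1, _⟩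
      · rcases hg y hy' with ⟨_, h4⟩ | ⟨_, h3, _⟩
        · rw [← h2, ← h4, hxy]
        · exfalso
          rw [← hxy, h2] at h3
          exact hind y x hy' hx' (hadj _ _ h3)
      · rcases hg y hy' with ⟨_, h4⟩ | ⟨_, h3, _⟩
        · exfalso
          rw [hxy, h4] at h1
          exact hind x y hx' hy' (hadj _ _ h1)
        · rw [← h1.2, ← h3.2, hxy]

/-- A connected graph in which `u` and `v` have only each other as neighbours. -/
theorem only_two (hG : G.Connected) {u v : V} (h : G.Adj u v) (hu : ∀ w, G.Adj u w → w = v)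
    (hv : ∀ w, G.Adj v w → w = u) (w : V) : w = u ∨ w = v := by
  obtain ⟨p⟩ := hG.preconnected w u
  induction p with
  | nil => exact Or.inl rfl
  | cons hadj q ih =>
    rcases ih h hu hv with rfl | rfl
    · right
      exact hu _ hadj.symm
    · left
      exact hv _ hadj.symm

theorem ncard_le_one_unique [Finite V] {v x y : V} (h : deg G v ≤ 1) (hx : G.Adj v x)
    (hy : G.Adj v y) : x = y := by
  unfold deg at h
  rw [Set.ncard_le_one (Set.toFinite _)] at h
  exact h x hx y hy

/-- **`i(T) ≤ γ_W(T)` for every tree**, and the general form for dominating sets containing all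
leaves. -/
theorem result :
    (∀ (V : Type u) [Finite V] (G : SimpleGraph V), G.IsTree → indDom G ≤ weakDom G) ∧
    (∀ (V : Type u) [Finite V] (G : SimpleGraph V), G.IsTree → ∀ D : Finset V,
      Dominating G D → (∀ v, deg G v = 1 → v ∈ D) →
      ∃ I : Finset V, Dominating G I ∧ Independent G I ∧ I.card ≤ D.card) := by
  have main : ∀ (V : Type u) [Finite V] (G : SimpleGraph V), G.IsTree → ∀ D : Finset V,
      Dominating G D → (∀ v, deg G v = 1 → v ∈ D) →
      ∃ I : Finset V, Dominating G I ∧ Independent G I ∧ I.card ≤ D.card := by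
    intro V _ G hG D hD hleaf
    refine exists_indep hG D hD ?_
    intro v hv x hx
    by_contra hcon
    push Not at hcon
    apply hv
    apply hleaf
    have h1 : G.neighborSet v = {x} := by
      ext y
      simp only [SimpleGraph.mem_neighborSet, Set.mem_singleton_iff]
      constructor
      · intro hy
        by_contra hne
        exact hcon y hne hy
      · rintro rfl
        exact hx
    unfold deg
    rw [h1, Set.ncard_singleton]
  refine ⟨?_, main⟩
  intro V _ G hG
  classical
  have := Fintype.ofFinite V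
  -- a weak dominating set of minimum size
  have hne : {k | ∃ D : Finset V, WeakDominating G D ∧ D.card = k}.Nonempty :=
    ⟨_, Finset.univ, fun v hv => absurd (Finset.mem_univ v) hv, rfl⟩
  obtain ⟨D, hD, hcard⟩ := Nat.sInf_mem hne
  have hdom : Dominating G D := by
    intro v hv
    obtain ⟨u, hu, huv, _⟩ := hD v hv
    exact ⟨u, hu, huv⟩
  have hgoal : ∃ I : Finset V, Dominating G I ∧ Independent G I ∧ I.card ≤ D.card := by
    by_cases hleaf : ∀ v, deg G v = 1 → v ∈ D
    · exact main V G hG D hdom hleaf
    · push Not at hleaf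
      obtain ⟨v, hv1, hv2⟩ := hleaf
      obtain ⟨u, hu, huv, hdeg⟩ := hD v hv2
      have h1 : ∀ w, G.Adj u w → w = v := fun w hw =>
        ncard_le_one_unique (by omega) hw huv
      have h2 : ∀ w, G.Adj v w → w = u := fun w hw =>
        ncard_le_one_unique (by omega) hw huv.symm
      have h3 := only_two hG.connected huv h1 h2
      refine ⟨{u}, ?_, ?_, ?_⟩
      · intro w hw
        rcases h3 w with rfl | rfl
        · simp at hw
        · exact ⟨u, by simp, huv⟩
      · intro a ha b hb
        rw [Finset.mem_singleton] at ha hb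
        subst ha hb
        exact G.irrefl
      · rw [Finset.card_singleton]
        exact Finset.card_pos.2 ⟨u, hu⟩
  obtain ⟨I, hI1, hI2, hI3⟩ := hgoal
  have h4 : indDom G ≤ I.card := Nat.sInf_le ⟨I, hI1, hI2, rfl⟩
  have h5 : weakDom G = D.card := hcard.symm
  omega

end Pool.Agent.Results.MP_2d208d_co.IndependentWeak
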